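import Pool.Agent.H58.SO.Basic

/-!
# The structure with arbitrary vertices of the types in `D`
-/

set_option autoImplicit false
set_option linter.unusedVariables false

namespace Pool.Agent.H60.SO

open Pool.Agent.H68.BP Pool.Agent.H58.SF Pool.Agent.H53.GC Pool.Agent.H53.NR Pool.Agent.H58.SO
open Classical

theorem pf_SHP (hCOL : Pool.Agent.H58.SO.T_COL) (hORD : Pool.Agent.H58.SO.T_ORD)
    (hUMB : Pool.Agent.H58.SO.T_UMB) : Pool.Agent.H58.SO.T_SHP := by
  intro σ V X Θ _ M B 𝔸 m D hBl hUM htm hD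
  refine ⟨?_, ?_, ?_⟩
  · intro l y y' hy hs
    obtain ⟨x, hx, hxy⟩ := hy
    exact ⟨x, hx, hxy.trans hs⟩
  · intro s x hx
    refine ⟨x, ?_, fun a b => rfl⟩
    cases s with
    | none => trivial
    | some l => exact ⟨x, hx, SameD.refl x⟩
  · intro s y hy
    cases s with
    | none => exact hUM none y trivial
    | some l =>
      obtain ⟨x, hx, hxy⟩ := hy
      let rk : Fin (σ.ar l) → Bool ×ₗ V := fun a =>
        toLex (decide (B.vt (x a) ∈ D), if B.vt (x a) ∈ D then x a else y a)
      have hrk : ∀ a b, rk a = rk b ↔ x a = x b := by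
        intro a b
        show toLex (decide (B.vt (x a) ∈ D), if B.vt (x a) ∈ D then x a else y a) =
          toLex (decide (B.vt (x b) ∈ D), if B.vt (x b) ∈ D then x b else y b) ↔ x a = x b
        rw [toLex_inj, Prod.mk.injEq]
        by_cases ha : B.vt (x a) ∈ D
        · by_cases hb : B.vt (x b) ∈ D
          · rw [if_pos ha, if_pos hb]
            exact ⟨fun h => h.2, fun h => ⟨by rw [h], h⟩⟩
          · refine ⟨fun h => ?_, fun h => ?_⟩
            · exact absurd ((decide_eq_decide.1 h.1).1 ha) hb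
            · exact absurd (h ▸ ha) hb
        · by_cases hb : B.vt (x b) ∈ D
          · refine ⟨fun h => ?_, fun h => ?_⟩
            · exact absurd ((decide_eq_decide.1 h.1).2 hb) ha
            · exact absurd (h ▸ hb) ha
          · rw [if_neg ha, if_neg hb]
            refine ⟨fun h => (hxy.2 a b ha hb).1.1 h.2, fun h => ⟨by rw [h], ?_⟩⟩
            exact (hxy.2 a b ha hb).1.2 h
      obtain ⟨x', hx', hlt⟩ := hORD V X Θ M B (Fin (σ.ar l)) (Bool ×ₗ V) x rk hrk
      have hA : 𝔸 l x' := hBl l x x' hx hx'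
      obtain ⟨z, hz, hzm⟩ := hUM (some l) x' hA
      refine ⟨z, hz, fun a b => ?_⟩
      rw [hzm a b]
      change m (B.ct (x' a) (x' b)) = m (B.ct (y a) (y b))
      have ta : B.vt (x' a) = B.vt (x a) := hx'.1 a
      have tb : B.vt (x' b) = B.vt (x b) := hx'.1 b
      have ua : B.vt (y a) = B.vt (x a) := hxy.1 a
      have ub : B.vt (y b) = B.vt (x b) := hxy.1 b
      by_cases ha : B.vt (x a) ∈ D
      · have h1 := (hCOL σ V X Θ M B 𝔸 m hUM (B.vt (x a)) (hD _ ha) (x' a) (x' b) ta).1
        have h2 := (hCOL σ V X Θ M B 𝔸 m hUM (B.vt (x a)) (hD _ ha) (y a) (y b) ua).1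
        rw [h1, h2, tb, ub]
      · by_cases hb : B.vt (x b) ∈ D
        · have h1 := (hCOL σ V X Θ M B 𝔸 m hUM (B.vt (x b)) (hD _ hb) (x' b) (x' a) tb).2
          have h2 := (hCOL σ V X Θ M B 𝔸 m hUM (B.vt (x b)) (hD _ hb) (y b) (y a) ub).2
          rw [h1, h2, ta, ua]
        · refine congrArg m ?_
          have hlt' : ∀ a b, B.vt (x a) ∉ D → B.vt (x b) ∉ D →
              (x' a < x' b ↔ y a < y b) := by
            intro a b ha hb
            rw [hlt a b]
            show toLex (decide (B.vt (x a) ∈ D), if B.vt (x a) ∈ D then x a else y a) <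
              toLex (decide (B.vt (x b) ∈ D), if B.vt (x b) ∈ D then x b else y b) ↔ _
            rw [Prod.Lex.toLex_lt_toLex]
            simp only [ha, hb, decide_false, lt_self_iff_false, if_false, true_and, false_or]
          rw [B.ct_eq_ct]
          refine ⟨?_, hlt' a b ha hb, hlt' b a hb ha⟩
          rw [(hx'.2 a b (fun h => h) (fun h => h)).2, (hxy.2 a b ha hb).2]

end Pool.Agent.H60.SO
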